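import Mathlib

set_option autoImplicit false

namespace Pool.Agent.Results.MP_8fcc33_co.NotMono

open Finset

/-- `A` is `t`-independent: no signed combination of weight in `[1, t]` vanishes. -/
def Indep {n : ℕ} (t : ℕ) (A : Finset (ZMod n)) : Prop :=
  ∀ l : ZMod n → ℤ, 1 ≤ ∑ a ∈ A, |l a| → ∑ a ∈ A, |l a| ≤ t → ∑ a ∈ A, l a • a ≠ 0

/-- The maximum size of a `t`-independent subset of `ZMod n`. -/
noncomputable def tau (n t : ℕ) : ℕ := sSup {m | ∃ A : Finset (ZMod n), Indep t A ∧ A.card = m}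

lemma Indep.mono {n t : ℕ} {A B : Finset (ZMod n)} (h : Indep t A) (hB : B ⊆ A) : Indep t B := by
  intro l h1 h2
  have e1 : ∑ a ∈ A, |if a ∈ B then l a else 0| = ∑ a ∈ B, |l a| := by
    rw [← sum_subset hB fun x _ hx => by simp [hx]]
    exact sum_congr rfl fun x hx => by simp [hx]
  have e2 : ∑ a ∈ A, (if a ∈ B then l a else 0) • a = ∑ a ∈ B, l a • a := by
    rw [← sum_subset hB fun x _ hx => by simp [hx]]
    exact sum_congr rfl fun x hx => by simp [hx]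
  rw [← e2]
  exact h _ (e1 ▸ h1) (e1 ▸ h2)

lemma le_tau {n t : ℕ} [NeZero n] {A : Finset (ZMod n)} (h : Indep t A) : A.card ≤ tau n t :=
  le_csSup ⟨Fintype.card (ZMod n), by rintro _ ⟨B, -, rfl⟩; exact card_le_univ B⟩ ⟨A, h, rfl⟩

lemma tau_le {n t k : ℕ} (h : ∀ A : Finset (ZMod n), Indep t A → A.card ≤ k) : tau n t ≤ k :=
  csSup_le' (by rintro _ ⟨B, hB, rfl⟩; exact h B hB)

lemma tau_le_one {n t : ℕ} (h : ∀ a b : ZMod n, ∃ i j : ℤ, 1 ≤ |i| + |j| ∧ |i| + |j| ≤ t ∧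
    i • a + j • b = 0) : tau n t ≤ 1 := by
  refine tau_le fun A hA => card_le_one.2 fun a ha b hb => ?_
  by_contra hab
  obtain ⟨i, j, h1, h2, h3⟩ := h a b
  have := (hA.mono (B := {a, b}) (by intro x; simp; rintro (rfl | rfl) <;> assumption))
    (fun x => if x = a then i else j)
  simp only [sum_pair hab, if_true, if_neg (Ne.symm hab)] at this
  exact this h1 h2 h3

lemma lift5 {n : ℕ} (h : ∀ a b : ZMod n, ∃ i j : Fin 11, 1 ≤ |(i : ℤ) - 5| + |(j : ℤ) - 5| ∧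
    |(i : ℤ) - 5| + |(j : ℤ) - 5| ≤ 5 ∧ ((i : ℤ) - 5) • a + ((j : ℤ) - 5) • b = 0) :
    tau n 5 ≤ 1 := tau_le_one fun a b => by
  obtain ⟨i, j, h⟩ := h a b
  exact ⟨_, _, h⟩

lemma ind18 : Indep 5 ({1, 5} : Finset (ZMod 18)) := by
  intro l
  rw [sum_pair (by decide), sum_pair (by decide)]
  generalize l 1 = i
  generalize l 5 = j
  intro h1 h2 h3
  have h4 : ((i + 5 * j : ℤ) : ZMod 18) = 0 := by
    rw [← h3]; simp [mul_comm]
  have h5 : (18 : ℤ) ∣ i + 5 * j := (ZMod.intCast_zmod_eq_zero_iff_dvd _ 18).1 h4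
  have key : ∀ i ∈ Icc (-5 : ℤ) 5, ∀ j ∈ Icc (-5 : ℤ) 5, 1 ≤ |i| + |j| → |i| + |j| ≤ 5 →
      ¬ (18 : ℤ) ∣ i + 5 * j := by decide +kernel
  have hi := abs_nonneg i
  have hj := abs_nonneg j
  exact key i (mem_Icc.2 (abs_le.1 (by omega))) j (mem_Icc.2 (abs_le.1 (by omega))) h1 h2 h5

theorem result : ¬ MonotoneOn (fun n => tau n 5) {n | 0 < n ∧ Even n} ∧
    ¬ AntitoneOn (fun n => tau n 5) {n | 0 < n ∧ Even n} := by
  have h18 : 2 ≤ tau 18 5 := le_tau ind18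
  have h20 : tau 20 5 ≤ 1 := lift5 (by decide +kernel)
  have h2 : tau 2 5 ≤ 1 := lift5 (by decide +kernel)
  constructor
  · intro h
    have : tau 18 5 ≤ tau 20 5 := h (a := 18) (b := 20) (by decide) (by decide) (by norm_num)
    omega
  · intro h
    have : tau 18 5 ≤ tau 2 5 := h (a := 2) (b := 18) (by decide) (by decide) (by norm_num)
    omega

end Pool.Agent.Results.MP_8fcc33_co.NotMono
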